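import Pool.Agent.H687R3.ALG.Gen

/-!
Automorphic loops of odd order: a normal subloop which contains a nontrivial element `a` whose
permutation `P a` commutes with all `P x` meets the middle nucleus nontrivially.
-/

universe u

open H361AL

namespace Pool.Agent.Results.MP_7090ba_al.CentralNormal

/-- The middle nucleus of a loop. -/
def middleNucleus (Q : Type u) [Loop Q] : Set Q :=
  {a | ∀ x y : Q, (x * a) * y = x * (a * y)}

/-- The permutation `P x : y ↦ x (y / x⁻¹)`, where `x⁻¹ = iv x` is the element with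
`x * iv x = 1`. -/
noncomputable def P {Q : Type u} [Loop Q] (x : Q) : Equiv.Perm Q := L x * (R (iv x))⁻¹

/-- The set of all `a` such that `P a` commutes with `P x` for every `x`. -/
def coreCentre (Q : Type u) [Loop Q] : Set Q := {a | ∀ x : Q, P a * P x = P x * P a}

/-- Normal subloops: closed under products and under left and right division, and mapped into
itself by every inner mapping. -/
structure IsNormalSubloop {Q : Type u} [Loop Q] (M : Set Q) : Prop where
  one_mem : (1 : Q) ∈ M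
  mul_mem : ∀ x ∈ M, ∀ y ∈ M, x * y ∈ M
  left_div : ∀ x ∈ M, ∀ y : Q, x * y ∈ M → y ∈ M
  right_div : ∀ x ∈ M, ∀ y : Q, y * x ∈ M → y ∈ M
  inn_mem : ∀ h ∈ Mlt Q, h 1 = 1 → ∀ x ∈ M, h x ∈ M

/-- Let `Q` be a finite automorphic loop of odd order.
(1) If a normal subloop `M` contains an element `a ≠ 1` of `coreCentre Q`, then `M` contains an
element `b ≠ 1` of the middle nucleus, which can be chosen in `coreCentre Q` as well.
(2) So if the middle nucleus is trivial, then `coreCentre Q = {1}`. -/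
theorem result (Q : Type u) [Loop Q] [Automorphic Q] [Finite Q] (hodd : Odd (Nat.card Q)) :
    (∀ M : Set Q, IsNormalSubloop M → (∃ a ∈ M ∩ coreCentre Q, a ≠ 1) →
      ∃ b ∈ M ∩ middleNucleus Q ∩ coreCentre Q, b ≠ 1) ∧
    (middleNucleus Q = {1} → coreCentre Q = {1}) := by
  have key : ∀ M : Set Q, IsNormalSubloop M → (∃ a ∈ M ∩ coreCentre Q, a ≠ 1) →
      ∃ b ∈ M ∩ middleNucleus Q ∩ coreCentre Q, b ≠ 1 := by
    rintro M hM ⟨a, ⟨haM, hac⟩, ha1⟩
    have hM' : Pool.Agent.H687R3.ALG.IsNormalSubloop M :=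
      ⟨hM.one_mem, hM.mul_mem, hM.left_div, hM.right_div, hM.inn_mem⟩
    obtain ⟨b, hbM, hb1, hb, hbc⟩ := Pool.Agent.H687R3.ALG.final hodd hM' haM ha1 hac
    exact ⟨b, ⟨⟨hbM, hb⟩, hbc⟩, hb1⟩
  refine ⟨key, fun hN => ?_⟩
  have h1 : (1 : Q) ∈ coreCentre Q := by
    intro x
    have h2 : P (1 : Q) = 1 := by
      ext y
      change 1 * ((R (iv (1 : Q)))⁻¹ y) = y
      have h3 : R (iv (1 : Q)) = 1 := by
        ext z
        change z * iv (1 : Q) = z
        rw [iv_one, Loop.mul_one']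
      rw [h3, Loop.one_mul']; rfl
    rw [h2, one_mul, mul_one]
  refine Set.Subset.antisymm ?_ (by rintro _ rfl; exact h1)
  intro a ha
  by_contra ha1
  obtain ⟨b, ⟨⟨-, hb⟩, -⟩, hb1⟩ := key Set.univ
    ⟨trivial, fun _ _ _ _ => trivial, fun _ _ _ _ => trivial, fun _ _ _ _ => trivial,
      fun _ _ _ _ _ => trivial⟩ ⟨a, ⟨trivial, ha⟩, ha1⟩
  rw [hN] at hb
  exact hb1 hb

end Pool.Agent.Results.MP_7090ba_al.CentralNormal
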