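import Pool.Agent.H361R3.AL.OddCen

/-!
Automorphic loops of odd order whose core group has a nontrivial centre have a nontrivial middle
nucleus.
-/

universe u

open H361AL

/-- The middle nucleus of a loop. -/
def Pool.Agent.Results.MP_7090ba_al.CoreCenter.middleNucleus (Q : Type u) [Loop Q] : Set Q :=
  {a | ∀ x y : Q, (x * a) * y = x * (a * y)}

/-- The core group of a loop: the permutation group generated by all `P_a = L_a (R_{a'})⁻¹`,
where `a' = (L_a)⁻¹ 1` is the (right) inverse of `a`. -/
noncomputable def Pool.Agent.Results.MP_7090ba_al.CoreCenter.coreGroup (Q : Type u) [Loop Q] :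
    Subgroup (Equiv.Perm Q) :=
  Subgroup.closure (Set.range fun a : Q => L a * (R ((L a)⁻¹ 1))⁻¹)

open Pool.Agent.Results.MP_7090ba_al.CoreCenter in
/-- Let `Q` be a finite automorphic loop of odd order whose core group has a nontrivial centre.
Then the middle nucleus of `Q` contains an element other than `1`. -/
theorem Pool.Agent.Results.MP_7090ba_al.CoreCenter.result (Q : Type u) [Loop Q] [Automorphic Q]
    [Finite Q] (hodd : Odd (Nat.card Q)) (hZ : Subgroup.center (coreGroup Q) ≠ ⊥) :
    (∃ a ∈ middleNucleus Q, a ≠ 1) ∧ middleNucleus Q ≠ {1} := by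
  have hN : coreGroup Q = N Q := by
    unfold coreGroup N
    congr 1
    ext g
    simp only [Set.mem_range]
    constructor
    · rintro ⟨a, rfl⟩
      exact ⟨a, P_eq a⟩
    · rintro ⟨a, rfl⟩
      exact ⟨a, (P_eq a).symm⟩
  rw [hN] at hZ
  obtain ⟨a, ha1, ha⟩ := main_center hodd hZ
  have hmem : a ∈ middleNucleus Q := ha
  refine ⟨⟨a, hmem, ha1⟩, ?_⟩
  intro h
  rw [h] at hmem
  exact ha1 hmem
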