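import Pool.Agent.H687R3.ALG.Prime
import Pool.Agent.H361R3.AL.Final

/-!
Automorphic loops of odd order: normal subloops of prime order lie in the middle nucleus.
-/

universe u v

open H361AL

namespace Pool.Agent.Results.MP_7090ba_al.ScalarNormal

/-- The middle nucleus of a loop. -/
def middleNucleus (Q : Type u) [Loop Q] : Set Q :=
  {a | ∀ x y : Q, (x * a) * y = x * (a * y)}

/-- The map `e` is an isomorphism of the additive group `A` onto a normal subloop of `Q`: it is
injective, it sends sums to products, and its image is mapped into itself by every inner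
mapping. -/
structure IsNormalCopy {A : Type v} [AddCommGroup A] {Q : Type u} [Loop Q] (e : A → Q) :
    Prop where
  inj : Function.Injective e
  map_add : ∀ i j, e (i + j) = e i * e j
  normal : ∀ h ∈ Mlt Q, h 1 = 1 → ∀ i, ∃ j, h (e i) = e j

/-- (1) Let `Q` be an automorphic loop (finite or not) in which `x * x = y * y` implies `x = y`,
`K` a field and `e` an isomorphism of the additive group of `K` onto a normal subloop of `Q` on
which every inner mapping acts as the multiplication by an element of `K`. Then this normal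
subloop is contained in the middle nucleus of `Q`.
(2) In an automorphic loop of odd order every normal subloop which is isomorphic to a cyclic group
of prime order is contained in the middle nucleus.
(3) So an automorphic loop of odd order with trivial middle nucleus has no normal subloop
isomorphic to a cyclic group of prime order. -/
theorem result :
    (∀ (Q : Type u) [Loop Q] [Automorphic Q], (∀ x y : Q, x * x = y * y → x = y) →
      ∀ (K : Type v) [Field K] (e : K → Q), IsNormalCopy e →
        (∀ h ∈ Mlt Q, h 1 = 1 → ∃ c : K, ∀ i, h (e i) = e (c * i)) →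
        ∀ i, e i ∈ middleNucleus Q) ∧
    (∀ (Q : Type u) [Loop Q] [Automorphic Q] [Finite Q], Odd (Nat.card Q) →
      ∀ (p : ℕ), p.Prime → ∀ e : ZMod p → Q, IsNormalCopy e → ∀ i, e i ∈ middleNucleus Q) ∧
    (∀ (Q : Type u) [Loop Q] [Automorphic Q] [Finite Q], Odd (Nat.card Q) →
      middleNucleus Q = {1} → ∀ (p : ℕ), p.Prime → ¬ ∃ e : ZMod p → Q, IsNormalCopy e) := by
  have one : ∀ (Q : Type u) [Loop Q] [Automorphic Q], (∀ x y : Q, x * x = y * y → x = y) →
      ∀ (K : Type v) [Field K] (e : K → Q), IsNormalCopy e →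
        (∀ h ∈ Mlt Q, h 1 = 1 → ∃ c : K, ∀ i, h (e i) = e (c * i)) →
        ∀ i, e i ∈ middleNucleus Q := by
    intro Q _ _ hsq K _ e he hs i x y
    exact Pool.Agent.H687R3.ALP.main ⟨he.inj, he.map_add, hs⟩ hsq i x y
  have two : ∀ (Q : Type u) [Loop Q] [Automorphic Q] [Finite Q], Odd (Nat.card Q) →
      ∀ (p : ℕ), p.Prime → ∀ e : ZMod p → Q, IsNormalCopy e → ∀ i, e i ∈ middleNucleus Q := by
    intro Q _ _ _ hodd p hp e he i x y
    have hpf : Fact p.Prime := ⟨hp⟩
    have hsq : ∀ x y : Q, x * x = y * y → x = y := by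
      intro a b h
      rw [← s_apply_one, ← s_apply_one] at h
      have h1 : (s b * s a) 1 = 1 := by
        rw [Equiv.Perm.mul_apply, h, ← Equiv.Perm.mul_apply, s_mul_s]; rfl
      exact (semireg hodd h1).symm
    refine Pool.Agent.H687R3.ALP.main (e := e) ⟨he.inj, he.map_add, ?_⟩ hsq i x y
    intro h hm h1
    choose φ hφ using he.normal h hm h1
    have hadd' : ∀ i j, φ (i + j) = φ i + φ j := by
      intro i j
      apply he.inj
      rw [← hφ, he.map_add, aut hm h1, hφ, hφ, he.map_add]
    let f : ZMod p →+ ZMod p := AddMonoidHom.mk' φ hadd'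
    refine ⟨φ 1, fun i => ?_⟩
    have h2 : f (i • (1 : ZMod p)) = i • f 1 := ZMod.map_smul f i 1
    rw [smul_eq_mul, mul_one, smul_eq_mul] at h2
    change φ i = i * φ 1 at h2
    rw [hφ, h2, mul_comm]
  refine ⟨one, two, ?_⟩
  rintro Q _ _ _ hodd hN p hp ⟨e, he⟩
  have hpf : Fact p.Prime := ⟨hp⟩
  have h0 := two Q hodd p hp e he 0
  have h1 := two Q hodd p hp e he 1
  rw [hN] at h0 h1
  have h2 : e 0 = e 1 := h0.trans h1.symm
  exact zero_ne_one (he.inj h2)

end Pool.Agent.Results.MP_7090ba_al.ScalarNormal
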